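import Pool.Agent.N18.KM.Tw
import Pool.Agent.N18.KM.Zc
import Pool.Agent.N24.KM.All
import Pool.Agent.N676.OR.Cnt
import Pool.Agent.Results.MP_f80667_ag.DegreeZeroComplexOfTwists

/-!
# Zero-cycles of degree zero on twists of cyclic coverings, for twists along arbitrary sequences and
# almost all multipliers

Let `b y ^ 2 = ∏ k, G k (z, w)` be a hyperelliptic curve `D` over `ℚ`, where the `G k` are the
homogenisations of polynomials `g k` with integral coefficients, of even degrees, pairwise coprime.
Let `h` be a nonconstant polynomial with integral coefficients, coprime to the `g k`, and `H` its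
homogenisation. For an integer `a` and an even `m ∣ deg h` consider the curve

  `C a : b y ^ 2 = ∏ k, G k (z, w)`, `a x ^ m = H (z, w)`,

a cyclic covering of `D`; for different `a` these coverings are twists of each other, for example the
curves `b y ^ 2 = ∏ g k (a x ^ m)`. The genus is arbitrary, and nothing is known about the
Tate-Shafarevich groups of the Jacobians. The starting result
`DegreeZeroComplexOfTwists` (whose definitions are used) is about 100% of the squarefree integers
`|a| ≤ X`, for one family `(b, g, h)`.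

The functions `G k` have even divisors on `D`, so the value `∏ N (G k (P i)) ^ c i` modulo squares of a
zero-cycle `∑ c i P i` over a field, with points `P i` over finite extensions, depends only on the class
in `CH₀ / 2`, and the quaternion algebras `(G k, e)`, `e` a nonzero integer, belong to the Brauer group of
`C a`. An adelic zero-cycle is orthogonal if the sum of the local invariants of each of these classes is
zero. The integer `a` has the property `GoodTwist` if for all even `m ∣ deg h`, `m > 0`, and all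
orthogonal adelic zero-cycles `(z_v)` of degree zero (or of even degree) on `C a`:

* (general) there are squarefree integers `n k` with `G k (z_v) = n k` in `ℚ_v* / ℚ_v*²` for all `k` and
  all places `v`, and the family `n` is persistent: `∏ n k` is a square, and for every automorphism
  `σ` of the field of algebraic numbers there is a `σ`-stable set of zeros `β` of `h`, of even
  cardinality, with `∏ β, g k (β) = n k * y k ^ 2`, `σ (y k) = y k`;
* if the zeros of `h` are one or two rational numbers `α₁`, `α₂` (with any multiplicities) and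
  `b ∏ g k (α₁)` is a square, there is a zero-cycle `z` of degree zero on `C a` over `ℚ` with
  `G k (z) = G k (z_v)` in `ℚ_v* / ℚ_v*²` for all `k` and all `v`;
* if `h` has at most two zeros `x₁`, `x₂`, rational or conjugate, and `∏ k, g k (x₁) g k (x₂)` is not a
  square in `ℚ`, then `G k (z_v) = 1` in `ℚ_v* / ℚ_v*²` for all `k` and all `v`;
* the same holds if the zeros of `h` are square roots of `A`, `B`, `A B`, where `A`, `B`, `A B` are
  rational and not squares, and the values of the `g k` at the zeros depend only on the squares of the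
  zeros.

So the complex for zero-cycles of degree zero modulo 2 is exact up to elements of the kernels of the maps
`(G k)` for these twists, without assumptions on Tate-Shafarevich groups.

**Theorem.** A sequence `c_0, c_1, …` of vectors in `ℤ ^ ι` (`ι` a finite set) is called good (`Good`) if
there is ONE set `E` of indices of natural density zero, such that for ALL families `(b, g, h)` and ALL
linear forms `λ ≠ 0` with integral coefficients the twist by `a = λ(c_x)` has the property `GoodTwist`
for all but finitely many `x ∉ E`.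

1. Let `f_{i,0}, f_{i,1}, …` (`i ∈ ι`) be functions which satisfy the hypothesis of Koksma's theorem on
   `[a_i, b_i]` (`Koksma`). Then `c_x = (⌊f_{i,x}(α_i)⌋)_i` is good for almost all `α` with
   `a_i ≤ α_i ≤ b_i`.
2. Let `a_{i,0}, a_{i,1}, …` (`i ∈ ι`) be ANY sequences of real numbers with mutual distances at least
   `δ > 0`, for example any sequences of different integers (`x!`, `2 ^ x`, any enumeration of any
   infinite set of integers or of primes), and possibly all the same. Then `c_x = (⌊a_{i,x} α_i⌋)_i` is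
   good for almost all `α`.
3. Let `k_0, k_1, …` be ANY sequence of different natural numbers, and `ξ_i ≠ 0`. Then
   `c_x = (⌊ξ_i α_i ^ k_x⌋)_i` is good for almost all `α` with all `α_i > 1`.

For instance, for almost all real numbers `α` the conclusion holds for the twists by `⌊x! α⌋`, or by
`⌊α ^ x⌋` if `α > 1`, for `100%` of the `x`. There is no condition of growth or regularity: the sequences
can grow arbitrarily fast, so that among the integers up to `X` the number of the twists considered tends
to infinity with `X` as slowly as one likes, and the twists `a` are not squarefree in general. There is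
one exceptional set for all families of curves.

The last case occurs for `g = (z ^ 2 + 51, z ^ 2 - 1)`, `h = (z ^ 2 + 1) (z ^ 2 - 17) (z ^ 2 + 17)`,
`b = 1`, and then there are points over the real numbers and over all the `p`-adic fields on all the
curves `C a`.

Proof. A set of integral vectors is pronull if its closure in the product of the `ℤ_p ^ ι` over the
primes `p` which do not divide `M` has Haar measure zero, for all `M`. For a class which is not
persistent there are a positive proportion of primes `p` (Chebotarev's theorem) such that no zero-cycle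
on `C a` over `ℚ_p` has this class if `p` divides `a` exactly once (local analysis of helper925). The set
of the vectors `c` for which no such prime divides `λ(c)` exactly once is pronull (helper676, with the
engine of helper24, helper300 and helper765). By the theorem of Koksma in several variables almost all
metric sequences are in such a set only for indices of density zero (helper24 with the workers of the
project KM). There are countably many `(b, g, h)` and `λ`, and a diagonal argument gives one set `E`.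
-/

set_option autoImplicit false

namespace Pool.Agent.Results.MP_f80667_ag.MetricSequences

open Polynomial MeasureTheory Filter Topology Pool.Agent.R925.FD Pool.Agent.R925.ZC
open Pool.Agent.Results.MP_f80667_ag.DegreeZeroComplexOfTwists
  (Admissible EvenDegree OfPersistentClass TrivialValues parity_of_even trivial_of)
open Pool.Agent.N676.OR (Hit Big)

/-- The hypothesis of Koksma's theorem: the functions `f n` are twice continuously differentiable, the
derivatives of different ones differ by at least `δ > 0` on `[a, b]`, and the second derivative of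
`f m - f n` does not change its sign there. -/
def Koksma (a b : ℝ) (f : ℕ → ℝ → ℝ) : Prop :=
  (∀ n, ContDiff ℝ 2 (f n)) ∧ ∃ δ : ℝ, 0 < δ ∧ ∀ m n : ℕ, m ≠ n →
    (∀ x ∈ Set.Icc a b, δ ≤ |deriv (f m) x - deriv (f n) x|) ∧
    ((∀ x ∈ Set.Icc a b, deriv (deriv (f n)) x ≤ deriv (deriv (f m)) x) ∨
      ∀ x ∈ Set.Icc a b, deriv (deriv (f m)) x ≤ deriv (deriv (f n)) x)

/-- `E` has natural density zero. -/
def DensityZero (E : Set ℕ) : Prop :=
  Tendsto (fun N : ℕ => (({x : ℕ | x < N ∧ x ∈ E}.ncard : ℕ) : ℝ) / (N : ℝ)) atTop (𝓝 0)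

/-- `h` has at most two zeros, rational or conjugate, and the product of the values of the `g k` at them
is not a square in `ℚ`. -/
def TwoZeros {r : ℕ} (g : Fin r → ℤ[X]) (h : ℤ[X]) : Prop :=
  ∃ (x₁ x₂ : AlgebraicClosure ℚ) (N : Fin r → ℚ),
    (∀ β : AlgebraicClosure ℚ, aeval β h = 0 → β = x₁ ∨ β = x₂) ∧
    (∀ k, aeval x₁ (g k) * aeval x₂ (g k) = (N k : AlgebraicClosure ℚ)) ∧
    (∀ k, N k ≠ 0) ∧ ¬ IsSquare (∏ k, N k)

/-- The zeros of `h` are square roots of `A`, `B`, `A B`, where `A`, `B`, `A B` are rational and not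
squares, and the values of the `g k` at the zeros depend only on the squares of the zeros. -/
def ThreeSquares {r : ℕ} (g : Fin r → ℤ[X]) (h : ℤ[X]) : Prop :=
  ∃ (A B : ℚ) (v₁ v₂ v₃ : Fin r → ℚ), ¬ IsSquare A ∧ ¬ IsSquare B ∧ ¬ IsSquare (A * B) ∧
    (∀ β : AlgebraicClosure ℚ, aeval β h = 0 → β ^ 2 = (A : AlgebraicClosure ℚ) ∨
      β ^ 2 = (B : AlgebraicClosure ℚ) ∨ β ^ 2 = ((A * B : ℚ) : AlgebraicClosure ℚ)) ∧
    (∀ k, v₁ k ≠ 0) ∧ (∀ k, v₂ k ≠ 0) ∧ (∀ k, v₃ k ≠ 0) ∧
    (∀ k β, β ^ 2 = (A : AlgebraicClosure ℚ) → aeval β (g k) = (v₁ k : AlgebraicClosure ℚ)) ∧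
    (∀ k β, β ^ 2 = (B : AlgebraicClosure ℚ) → aeval β (g k) = (v₂ k : AlgebraicClosure ℚ)) ∧
    (∀ k β, β ^ 2 = ((A * B : ℚ) : AlgebraicClosure ℚ) →
      aeval β (g k) = (v₃ k : AlgebraicClosure ℚ))

/-- The orthogonal adelic zero-cycles of even degree on the curves `C a`, `m` even, `m ∣ deg h`, have
the values of persistent classes, those of zero-cycles over `ℚ` of degree zero if `h` has one or two
rational zeros over which there are rational points, and trivial values in two other cases. -/
def GoodTwist {r : ℕ} (b : ℤ) (g : Fin r → ℤ[X]) (h : ℤ[X]) (a : ℤ) : Prop :=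
  ∀ m : ℕ, 0 < m → Even m → m ∣ h.natDegree → ∀ Z : AdelicCycle m b a g h, EvenDegree Z →
    Z.Orthogonal → OfPersistentClass Z ∧
    (∀ α₁ α₂ : ℚ, (∀ β : AlgebraicClosure ℚ, aeval β h = 0 ↔ β = α₁ ∨ β = α₂) →
      IsSquare ((b : ℚ) * ∏ k, aeval α₁ (g k)) →
      ∃ z : Cycle m b a g h ℚ, z.degree = 0 ∧ SameValues Z z) ∧
    (TwoZeros g h → TrivialValues Z) ∧ (ThreeSquares g h → TrivialValues Z)

/-- The twists by all linear forms of the vectors `c 0, c 1, …`, for ALL families of curves, have the
property `GoodTwist`, apart from the indices in one set of density zero and finitely many more,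
depending on the family and the linear form. -/
def Good {ι : Type} [Fintype ι] (c : ℕ → ι → ℤ) : Prop :=
  ∃ E : Set ℕ, DensityZero E ∧
    ∀ (r : ℕ) (b : ℤ) (g : Fin r → ℤ[X]) (h : ℤ[X]), Admissible b g h →
      ∀ lam : ι → ℤ, lam ≠ 0 → {x : ℕ | x ∉ E ∧ ¬ GoodTwist b g h (∑ i, lam i * c x i)}.Finite

lemma goodTwist_of {r : ℕ} {b : ℤ} {g : Fin r → ℤ[X]} {h : ℤ[X]} (hA : Admissible b g h) :
    ∃ PP : Set (Set ℕ), PP.Finite ∧ (∀ P ∈ PP, Big P) ∧
      ∀ a : ℤ, (∀ P ∈ PP, Hit P a) → GoodTwist b g h a := by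
  classical
  obtain ⟨PP, h1, h2, h3⟩ :=
    Pool.Agent.N18.KM.zc_once hA.b_ne hA.g_ne hA.h_deg hA.deg hA.coprime hA.coprime_h
  refine ⟨PP, h1, h2, fun a ha m hm0 hm hmh Z hd hZ => ?_⟩
  obtain ⟨n, hn1, hn2, hn3, hn4, hn5⟩ := h3 a ha m hm hmh 0 Z (parity_of_even hd) hZ
  refine ⟨⟨n, hn1, hn2, hn3, hn4, hn5⟩, fun α₁ α₂ hz hu => ?_, ?_, ?_⟩
  · obtain ⟨z, hz1, hz2⟩ := realize (m := m) (a := a) hm0 hA.b_ne hz
      (fun k => g_ne hA.h_deg hA.coprime_h ((hz α₁).2 (Or.inl rfl)) k)
      (fun k => g_ne hA.h_deg hA.coprime_h ((hz α₂).2 (Or.inr rfl)) k) (Or.inr hu) _ hn2 hn3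
    exact ⟨z, hz1, fun k => same_aux (hn1 k).ne_zero (hn4 k) (hz2 k).2,
      fun k p => same_aux (hn1 k).ne_zero (hn5 k p) (hz2 k).2⟩
  · rintro ⟨x₁, x₂, N, hz, hN, hN0, hsq⟩
    exact trivial_of hn1 hn4 hn5
      (trivial_two hA.b_ne g h x₁ x₂ hz N hN hN0 hsq Even.zero _ hn2 hn3)
  · rintro ⟨A, B, v₁, v₂, v₃, hA1, hB, hAB, hz, hv₁, hv₂, hv₃, k1, k2, k3⟩
    exact trivial_of hn1 hn4 hn5
      (trivial_three g h A B hA1 hB hAB hz v₁ v₂ v₃ hv₁ hv₂ hv₃ k1 k2 k3 Even.zero _ hn2.1 hn3)

theorem parts (ι : Type) [Fintype ι] :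
    (∀ (a b : ι → ℝ) (f : ι → ℕ → ℝ → ℝ), (∀ i, a i < b i) → (∀ i, Koksma (a i) (b i) (f i)) →
      ∀ᵐ α : ι → ℝ, (∀ i, α i ∈ Set.Icc (a i) (b i)) → Good fun x i => ⌊f i x (α i)⌋) ∧
    (∀ (a : ι → ℕ → ℝ) (δ : ℝ), 0 < δ → (∀ i m n, m ≠ n → δ ≤ |a i m - a i n|) →
      ∀ᵐ α : ι → ℝ, Good fun x i => ⌊a i x * α i⌋) ∧
    (∀ (k : ℕ → ℕ) (ξ : ι → ℝ), Function.Injective k → (∀ i, ξ i ≠ 0) →
      ∀ᵐ α : ι → ℝ, (∀ i, 1 < α i) → Good fun x i => ⌊ξ i * α i ^ k x⌋) := by
  classical
  have hcp := Pool.Agent.N676.OR.countable_poly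
  refine Pool.Agent.N18.KM.parts_tw Pool.Agent.N24.KM.main
    (𝔇 := Σ r : ℕ, ℤ × (Fin r → ℤ[X]) × ℤ[X])
    (fun D a => Admissible D.2.1 D.2.2.1 D.2.2.2 → GoodTwist D.2.1 D.2.2.1 D.2.2.2 a) ?_ Good ?_
  · rintro ⟨r, b, g, h⟩
    by_cases hA : Admissible b g h
    · obtain ⟨PP, h1, h2, h3⟩ := goodTwist_of hA
      exact ⟨PP, h1, h2, fun a ha _ => h3 a ha⟩
    · exact ⟨∅, Set.finite_empty, fun P hP => absurd hP (Set.notMem_empty _),
        fun a _ hA' => absurd hA' hA⟩
  · intro c E hE hall
    refine ⟨E, hE, fun r b g h hA lam hlam => (hall lam hlam ⟨r, b, g, h⟩).subset ?_⟩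
    rintro x ⟨hx, hx'⟩
    exact ⟨hx, fun hgood => hx' (hgood hA)⟩

lemma adm_ex : Admissible 1 exg exh :=
  ⟨one_ne_zero, exg_ne, by rw [exh_deg]; norm_num, fun k => by rw [exg_deg], exg_coprime,
    exgh_coprime⟩

lemma three_ex : ThreeSquares exg exh := by
  have h17 : ¬ IsSquare (17 : ℚ) := by
    rw [show (17 : ℚ) = ((17 : ℕ) : ℚ) from rfl, Rat.isSquare_natCast_iff]
    exact (by norm_num : Nat.Prime 17).prime.not_isSquare
  have h1 : ∀ β : AlgebraicClosure ℚ, aeval β (exg 1) = β ^ 2 - 1 := by
    intro β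
    change aeval β (X ^ 2 - 1 : ℤ[X]) = _
    simp
  refine ⟨-1, 17, ![50, -2], ![68, 16], ![34, -18], nonsq_of_neg (by norm_num), h17,
    nonsq_of_neg (by norm_num), ?_, ?_, ?_, ?_, ?_, ?_, ?_⟩
  · intro β hβ
    rcases aeval_exh β hβ with h | h | h
    · left; rw [h]; push_cast; rfl
    · right; left; rw [h]; push_cast; rfl
    · right; right; rw [h]; push_cast; norm_num
  · intro k; fin_cases k <;> norm_num
  · intro k; fin_cases k <;> norm_num
  · intro k; fin_cases k <;> norm_num
  · intro k β hβ
    fin_cases k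
    · change aeval β (exg 0) = ((50 : ℚ) : AlgebraicClosure ℚ)
      rw [aeval_exg0, hβ]; push_cast; norm_num
    · change aeval β (exg 1) = ((-2 : ℚ) : AlgebraicClosure ℚ)
      rw [h1, hβ]; push_cast; norm_num
  · intro k β hβ
    fin_cases k
    · change aeval β (exg 0) = ((68 : ℚ) : AlgebraicClosure ℚ)
      rw [aeval_exg0, hβ]; push_cast; norm_num
    · change aeval β (exg 1) = ((16 : ℚ) : AlgebraicClosure ℚ)
      rw [h1, hβ]; push_cast; norm_num
  · intro k β hβ
    fin_cases k
    · change aeval β (exg 0) = ((34 : ℚ) : AlgebraicClosure ℚ)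
      rw [aeval_exg0, hβ]; push_cast; norm_num
    · change aeval β (exg 1) = ((-18 : ℚ) : AlgebraicClosure ℚ)
      rw [h1, hβ]; push_cast; norm_num

theorem result :
    (∀ (ι : Type) [Fintype ι],
      (∀ (a b : ι → ℝ) (f : ι → ℕ → ℝ → ℝ), (∀ i, a i < b i) → (∀ i, Koksma (a i) (b i) (f i)) →
        ∀ᵐ α : ι → ℝ, (∀ i, α i ∈ Set.Icc (a i) (b i)) → Good fun x i => ⌊f i x (α i)⌋) ∧
      (∀ (a : ι → ℕ → ℝ) (δ : ℝ), 0 < δ → (∀ i m n, m ≠ n → δ ≤ |a i m - a i n|) →
        ∀ᵐ α : ι → ℝ, Good fun x i => ⌊a i x * α i⌋) ∧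
      (∀ (k : ℕ → ℕ) (ξ : ι → ℝ), Function.Injective k → (∀ i, ξ i ≠ 0) →
        ∀ᵐ α : ι → ℝ, (∀ i, 1 < α i) → Good fun x i => ⌊ξ i * α i ^ k x⌋)) ∧
    Admissible 1 exg exh ∧ ThreeSquares exg exh ∧
    ∀ (m : ℕ) (a : ℤ), m ≠ 0 → Nonempty (Point m 1 a exg exh ℝ) ∧
      ∀ (p : ℕ) [Fact p.Prime], Nonempty (Point m 1 a exg exh ℚ_[p]) :=
  ⟨fun ι _ => parts ι, adm_ex, three_ex,
    Pool.Agent.Results.MP_f80667_ag.DegreeZeroComplexOfTwists.result.2.2⟩

end Pool.Agent.Results.MP_f80667_ag.MetricSequences
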