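import Pool.Agent.N676.OR.Cnt
import Pool.Agent.N676.OR.Diag
import Pool.Agent.N676.OR.ZC
import Pool.Agent.Results.MP_f80667_ag.DegreeZeroComplexOfTwists

/-!
# Zero-cycles of degree zero on twists of cyclic coverings along random orbits of thin groups

Let `b y ^ 2 = ∏ k, G k (z, w)` be a hyperelliptic curve `D` over `ℚ`, where the `G k` are the
homogenisations of polynomials `g k` with integral coefficients, of even degrees, pairwise coprime, and
let `h` be a polynomial with integral coefficients, coprime to the `g k`, `H` its homogenisation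
(`Admissible`). For an integer `a` and an even `m ∣ deg h` let

  `C a : b y ^ 2 = ∏ k, G k (z, w)`, `a x ^ m = H (z, w)`.

The starting result `DegreeZeroComplexOfTwists` (whose definitions are used) treats 100% of the
squarefree integers `|a| ≤ X`, for one family `(b, g, h)`. Here `a = λ(c)` is the value of a linear form
`λ ≠ 0` with integral coefficients at the vectors of a random orbit: `W` is a finite family
`s_0, …, s_M` of matrices in `SL_r(ℤ)`, `r ≥ 2`, which generates `SL_r(ℤ/q)` for all `q` prime to some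
`q₀` (by strong approximation this is so for every finite set of matrices which generates a Zariski
dense subgroup, for example a thin one), `w 0, w 1, …` are independent uniformly distributed indices,
and `c_t = s_(w (t-1)) ⋯ s_(w 0) v`.

**Theorem.** (1) For every family `(b, g, h)` and every `λ ≠ 0` the set of the vectors `c` for which
`a = λ(c)` does not have the property `Good` is pronull: its closure in the product of the `ℤ_p^r`,
`p` not dividing `M`, has Haar measure zero, for all `M`.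

(2) For almost every word `w` there is ONE set `E` of times of density zero such that for ALL vectors
`v ≠ 0`, ALL linear forms `λ ≠ 0` and ALL families `(b, g, h)` the integer `a = λ(c_t)` has the property
`Good` for all but finitely many `t` outside `E`. For all but finitely many `t` outside `E` all adelic
zero-cycles of even degree on the curves `y² = (z² + 51) (z² - 1)`,
`a x ^ m = (z² + 1) (z² - 17) (z² + 17)`, `m = 2, 6`, which are orthogonal to the quaternion algebras
`(G k, e)` have the trivial values `G k (z_v) = 1`; these curves have points over `ℝ` and all `ℚ_p`.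

`Good` means that for all even `m ∣ deg h` and every adelic zero-cycle `(z_v)` of degree zero (or of
even degree) on `C a` which is orthogonal to the quaternion algebras `(G k, e)`:
* there are squarefree integers `n k` with `G k (z_v) = n k` in `ℚ_v* / ℚ_v*²` for all `k` and all `v`,
  and the family `n` is persistent;
* if the zeros of `h` are one or two rational numbers `α₁`, `α₂` and `b ∏ g k (α₁)` is a square, there is
  a zero-cycle `z` of degree zero over `ℚ` with `G k (z) = G k (z_v)` in `ℚ_v* / ℚ_v*²` for all `k`, `v`;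
* if `h` has at most two zeros `x₁`, `x₂` and `∏ k, g k (x₁) g k (x₂)` is not a square in `ℚ`, or if the
  zeros of `h` are square roots of `A`, `B`, `A B`, where `A`, `B`, `A B` are not squares, and the values
  of the `g k` there are rational and depend only on the squares of the zeros, then `G k (z_v) = 1` in
  `ℚ_v* / ℚ_v*²` for all `k` and all `v`.

The proof: the local analysis of helper925 (starting library, `Pool.Agent.R925.ZC`) at a prime which
divides `a` exactly once and has a given Frobenius element, here for integers `a` which are not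
squarefree; the set of the `c` such that no prime with this Frobenius element divides `λ(c)` exactly
once is pronull, and by the theorem of `Pool.Agent.N24.RW` (helper24 and helpers 543, 195, 300, 765,
340, 123) the random orbit is in a pronull set only at times of density zero; there are only countably
many conditions.
-/

set_option autoImplicit false

namespace Pool.Agent.Results.MP_f80667_ag.RandomOrbits

open Polynomial MeasureTheory Pool.Agent.R925.FD Pool.Agent.R925.ZC
open Pool.Agent.N24.RW Pool.Agent.N676.OR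
open Pool.Agent.Results.MP_f80667_ag.DegreeZeroComplexOfTwists
  (Admissible EvenDegree OfPersistentClass TrivialValues parity_of_even trivial_of)

/-- For all even `m ∣ deg h` the orthogonal adelic zero-cycles of even degree on `C a` have trivial
values. -/
def AllTrivial {r : ℕ} (b : ℤ) (g : Fin r → ℤ[X]) (h : ℤ[X]) (a : ℤ) : Prop :=
  ∀ m : ℕ, 0 < m → Even m → m ∣ h.natDegree → ∀ Z : AdelicCycle m b a g h,
    EvenDegree Z → Z.Orthogonal → TrivialValues Z

/-- The statements on adelic zero-cycles of even degree on the curves `C a`, `m` even, `m ∣ deg h`. -/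
def Good {r : ℕ} (b : ℤ) (g : Fin r → ℤ[X]) (h : ℤ[X]) (a : ℤ) : Prop :=
  (∀ m : ℕ, 0 < m → Even m → m ∣ h.natDegree → ∀ Z : AdelicCycle m b a g h,
    EvenDegree Z → Z.Orthogonal → OfPersistentClass Z) ∧
  (∀ α₁ α₂ : ℚ, (∀ β : AlgebraicClosure ℚ, aeval β h = 0 ↔ β = α₁ ∨ β = α₂) →
    IsSquare ((b : ℚ) * ∏ k, aeval α₁ (g k)) →
    ∀ m : ℕ, 0 < m → Even m → m ∣ h.natDegree → ∀ Z : AdelicCycle m b a g h,
      EvenDegree Z → Z.Orthogonal → ∃ z : Cycle m b a g h ℚ, z.degree = 0 ∧ SameValues Z z) ∧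
  (∀ (x₁ x₂ : AlgebraicClosure ℚ) (N : Fin r → ℚ),
    (∀ β : AlgebraicClosure ℚ, aeval β h = 0 → β = x₁ ∨ β = x₂) →
    (∀ k, aeval x₁ (g k) * aeval x₂ (g k) = (N k : AlgebraicClosure ℚ)) →
    (∀ k, N k ≠ 0) → ¬ IsSquare (∏ k, N k) → AllTrivial b g h a) ∧
  (∀ (A B : ℚ) (v₁ v₂ v₃ : Fin r → ℚ), ¬ IsSquare A → ¬ IsSquare B → ¬ IsSquare (A * B) →
    (∀ β : AlgebraicClosure ℚ, aeval β h = 0 → β ^ 2 = (A : AlgebraicClosure ℚ) ∨
      β ^ 2 = (B : AlgebraicClosure ℚ) ∨ β ^ 2 = ((A * B : ℚ) : AlgebraicClosure ℚ)) →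
    (∀ k, v₁ k ≠ 0) → (∀ k, v₂ k ≠ 0) → (∀ k, v₃ k ≠ 0) →
    (∀ k β, β ^ 2 = (A : AlgebraicClosure ℚ) → aeval β (g k) = (v₁ k : AlgebraicClosure ℚ)) →
    (∀ k β, β ^ 2 = (B : AlgebraicClosure ℚ) → aeval β (g k) = (v₂ k : AlgebraicClosure ℚ)) →
    (∀ k β, β ^ 2 = ((A * B : ℚ) : AlgebraicClosure ℚ) →
      aeval β (g k) = (v₃ k : AlgebraicClosure ℚ)) → AllTrivial b g h a)

lemma good_of {r : ℕ} {b : ℤ} {g : Fin r → ℤ[X]} {h : ℤ[X]} (hA : Admissible b g h) :
    ∃ PP : Set (Set ℕ), PP.Finite ∧ (∀ P ∈ PP, Big P) ∧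
      ∀ a : ℤ, (∀ P ∈ PP, Hit P a) → Good b g h a := by
  classical
  obtain ⟨PP, h1, h2, h3⟩ := zc_once hA.b_ne hA.g_ne hA.h_deg hA.deg hA.coprime hA.coprime_h
  refine ⟨PP, h1, h2, fun a ha => ⟨?_, ?_, ?_, ?_⟩⟩
  · intro m _ hm hmh Z hd hZ
    exact h3 a ha m hm hmh 0 Z (parity_of_even hd) hZ
  · intro α₁ α₂ hz hu m hm0 hm hmh Z hd hZ
    obtain ⟨n, hn1, hn2, hn3, hn4, hn5⟩ := h3 a ha m hm hmh 0 Z (parity_of_even hd) hZ
    obtain ⟨z, hz1, hz2⟩ := realize (m := m) (a := a) hm0 hA.b_ne hz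
      (fun k => g_ne hA.h_deg hA.coprime_h ((hz α₁).2 (Or.inl rfl)) k)
      (fun k => g_ne hA.h_deg hA.coprime_h ((hz α₂).2 (Or.inr rfl)) k) (Or.inr hu) _ hn2 hn3
    exact ⟨z, hz1, fun k => same_aux (hn1 k).ne_zero (hn4 k) (hz2 k).2,
      fun k p => same_aux (hn1 k).ne_zero (hn5 k p) (hz2 k).2⟩
  · intro x₁ x₂ N hz hN hN0 hsq m hm0 hm hmh Z hd hZ
    obtain ⟨n, hn1, hn2, hn3, hn4, hn5⟩ := h3 a ha m hm hmh 0 Z (parity_of_even hd) hZ
    exact trivial_of hn1 hn4 hn5
      (trivial_two hA.b_ne g h x₁ x₂ hz N hN hN0 hsq Even.zero _ hn2 hn3)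
  · intro A B v₁ v₂ v₃ hA1 hB hAB hz hv₁ hv₂ hv₃ e1 e2 e3 m hm0 hm hmh Z hd hZ
    obtain ⟨n, hn1, hn2, hn3, hn4, hn5⟩ := h3 a ha m hm hmh 0 Z (parity_of_even hd) hZ
    exact trivial_of hn1 hn4 hn5
      (trivial_three g h A B hA1 hB hAB hz v₁ v₂ v₃ hv₁ hv₂ hv₃ e1 e2 e3 Even.zero _ hn2.1 hn3)

lemma adm_ex : Admissible 1 exg exh :=
  ⟨one_ne_zero, exg_ne, by rw [exh_deg]; norm_num, fun k => by rw [exg_deg], exg_coprime,
    exgh_coprime⟩

lemma ex_trivial {a : ℤ} (hG : Good 1 exg exh a) : AllTrivial 1 exg exh a := by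
  have h17 : ¬ IsSquare (17 : ℚ) := by
    rw [show (17 : ℚ) = ((17 : ℕ) : ℚ) from rfl, Rat.isSquare_natCast_iff]
    exact (by norm_num : Nat.Prime 17).prime.not_isSquare
  have h1 : ∀ β : AlgebraicClosure ℚ, aeval β (exg 1) = β ^ 2 - 1 := by
    intro β
    change aeval β (X ^ 2 - 1 : ℤ[X]) = _
    simp
  exact hG.2.2.2 (-1) 17 ![50, -2] ![68, 16] ![34, -18]
    (nonsq_of_neg (by norm_num)) h17 (nonsq_of_neg (by norm_num)) (by
      intro β hβ
      rcases aeval_exh β hβ with h | h | h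
      · left; rw [h]; push_cast; rfl
      · right; left; rw [h]; push_cast; rfl
      · right; right; rw [h]; push_cast; norm_num)
    (by intro k; fin_cases k <;> norm_num) (by intro k; fin_cases k <;> norm_num)
    (by intro k; fin_cases k <;> norm_num)
    (by
      intro k β hβ
      fin_cases k
      · change aeval β (exg 0) = ((50 : ℚ) : AlgebraicClosure ℚ)
        rw [aeval_exg0, hβ]; push_cast; norm_num
      · change aeval β (exg 1) = ((-2 : ℚ) : AlgebraicClosure ℚ)
        rw [h1, hβ]; push_cast; norm_num)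
    (by
      intro k β hβ
      fin_cases k
      · change aeval β (exg 0) = ((68 : ℚ) : AlgebraicClosure ℚ)
        rw [aeval_exg0, hβ]; push_cast; norm_num
      · change aeval β (exg 1) = ((16 : ℚ) : AlgebraicClosure ℚ)
        rw [h1, hβ]; push_cast; norm_num)
    (by
      intro k β hβ
      fin_cases k
      · change aeval β (exg 0) = ((34 : ℚ) : AlgebraicClosure ℚ)
        rw [aeval_exg0, hβ]; push_cast; norm_num
      · change aeval β (exg 1) = ((-18 : ℚ) : AlgebraicClosure ℚ)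
        rw [h1, hβ]; push_cast; norm_num)

theorem result :
    (∀ (r : ℕ) (b : ℤ) (g : Fin r → ℤ[X]) (h : ℤ[X]), Admissible b g h →
      ∀ (ι : Type) [Fintype ι] (lam : ι → ℤ), lam ≠ 0 →
        ProNull {c : ι → ℤ | ¬ Good b g h (∑ i, lam i * c i)}) ∧
    (∀ (ι : Type) [Fintype ι] [DecidableEq ι], 2 ≤ Fintype.card ι → ∀ W : Walk ι,
      ∀ᵐ w ∂(words W.m), ∃ E : Set ℕ, DensityZero E ∧
        ∀ v : ι → ℤ, v ≠ 0 → ∀ lam : ι → ℤ, lam ≠ 0 →
          (∀ (r : ℕ) (b : ℤ) (g : Fin r → ℤ[X]) (h : ℤ[X]), Admissible b g h →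
            {t : ℕ | t ∉ E ∧ ¬ Good b g h (∑ i, lam i * orb W v w t i)}.Finite) ∧
          {t : ℕ | t ∉ E ∧ ¬ AllTrivial 1 exg exh (∑ i, lam i * orb W v w t i)}.Finite) ∧
    (∀ (m : ℕ) (a : ℤ), m ≠ 0 → Nonempty (Point m 1 a exg exh ℝ) ∧
      ∀ (p : ℕ) [Fact p.Prime], Nonempty (Point m 1 a exg exh ℚ_[p])) := by
  classical
  have hcp := countable_poly
  have key := orbit_principle (𝔇 := Σ r : ℕ, ℤ × (Fin r → ℤ[X]) × ℤ[X])
    (fun D a => Admissible D.2.1 D.2.2.1 D.2.2.2 → Good D.2.1 D.2.2.1 D.2.2.2 a) (by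
    rintro ⟨r, b, g, h⟩
    by_cases hA : Admissible b g h
    · obtain ⟨PP, h1, h2, h3⟩ := good_of hA
      exact ⟨PP, h1, h2, fun a ha _ => h3 a ha⟩
    · exact ⟨∅, Set.finite_empty, fun P hP => absurd hP (Set.notMem_empty _),
        fun a _ hA' => absurd hA' hA⟩)
  refine ⟨?_, ?_, fun m a hm => ⟨?_, ?_⟩⟩
  · intro r b g h hA ι _ lam hlam
    refine Clo.mono ?_ (key.1 ι lam hlam ⟨r, b, g, h⟩)
    intro c hc hgood
    exact hc (hgood hA)
  · intro ι _ _ hι W
    filter_upwards [key.2 ι hι W] with w hw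
    obtain ⟨E, hE, hall⟩ := hw
    have hgen : ∀ v : ι → ℤ, v ≠ 0 → ∀ lam : ι → ℤ, lam ≠ 0 →
        ∀ (r : ℕ) (b : ℤ) (g : Fin r → ℤ[X]) (h : ℤ[X]), Admissible b g h →
            {t : ℕ | t ∉ E ∧ ¬ Good b g h (∑ i, lam i * orb W v w t i)}.Finite := by
      intro v hv lam hlam r b g h hA
      refine (hall v hv lam hlam ⟨r, b, g, h⟩).subset ?_
      rintro t ⟨ht, ht'⟩
      exact ⟨ht, fun hgood => ht' (hgood hA)⟩
    refine ⟨E, hE, fun v hv lam hlam => ⟨hgen v hv lam hlam, ?_⟩⟩
    refine (hgen v hv lam hlam 2 1 exg exh adm_ex).subset ?_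
    rintro t ⟨ht, hno⟩
    exact ⟨ht, fun hgood => hno (ex_trivial hgood)⟩
  · obtain ⟨z, w, x, y, h1, h2, h3⟩ := ex_real m hm a
    exact ⟨⟨z, w, x, y, h1, h2, h3⟩⟩
  · intro p hp
    obtain ⟨z, w, x, y, h1, h2, h3⟩ := ex_padic m hm a p
    exact ⟨⟨z, w, x, y, h1, h2, h3⟩⟩

end Pool.Agent.Results.MP_f80667_ag.RandomOrbits
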