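import Pool.Agent.N546.ZT.ZC
import Pool.Agent.Results.MP_f80667_ag.DegreeZeroComplexOfTwists

/-!
# Zero-cycles of degree zero on twists in thin sequences: one null set for all coverings

Let `b y ^ 2 = ∏ k, G k (z, w)` be a hyperelliptic curve `D` over `ℚ`, where the `G k` are the
homogenisations of polynomials `g k` with integral coefficients, of even degrees, pairwise coprime.
Let `h` be a polynomial with integral coefficients, coprime to the `g k`, and `H` its homogenisation.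
For a nonzero integer `a` and an even `m ∣ deg h` consider the curve

  `C a : b y ^ 2 = ∏ k, G k (z, w)`, `a x ^ m = H (z, w)`,

a cyclic covering of degree `m` of `D`; for different `a` these coverings are twists of each other.
The functions `G k` define homomorphisms from the zero-cycles of degree zero modulo rational
equivalence on `C a` over a field `F` to `F* / F*²`, and the quaternion algebras `(G k, e)` belong to the Brauer
group of `C a`. The starting file `DegreeZeroComplexOfTwists` shows for almost all squarefree `a`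
that the adelic zero-cycles of degree zero (or of even degree) orthogonal to the classes `(G k, e)` have the values
of persistent classes; that they have the values of zero-cycles of degree zero over `ℚ` if the zeros
of `h` are one or two rational numbers `α₁`, `α₂` and `b ∏ g k (α₁)` is a square; and that they have trivial values
for some other `g` and `h`.

Let `z_0, z_1, z_2, …` be sequences of integers such that all finite subfamilies are uniformly
distributed modulo all `q`, along the sets `S₁ N ⊆ (N, 2 N]` and `S₂ N ⊆ (N, 2 N]`, `N → ∞`. For example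
`S₁ N` and `S₂ N` can be the sets of all integers and of all primes of `(N, 2 N]` and `z_l(t) = ⌊P_l(t)⌋`,
where the `P_l(t) = ∑ a_x t ^ x` are generalised polynomials (finitely many real exponents, real
coefficients) with distinct leading exponents which are positive and not integers and have positive
coefficients, such as `P_l(t) = t ^ (2 l + √2)`.

**Theorem.** (1) For all data `b`, `g`, `h` there are finitely many sets of primes with divergent sums of
reciprocals such that this is true for ALL integers `a`, squarefree or not, with an exact prime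
divisor in each of these sets.

(2) There is ONE set `E` of integers of density zero relative to the sets `S₁ N` and to the sets `S₂ N`,
such that this is true for ALL data `b`, `g`, `h` and all products `a = u ∏ z_l(t) ^ e_l` (`u ≠ 0`,
some `e_l = 1`) for all but finitely many integers `t` outside `E`. The set `E` depends on the
`z_l` only.

Proof. The starting file considers almost all squarefree `a`. Its local analysis works at the exact
prime divisors of an arbitrary integer `a`: the property needs one exact prime divisor in each of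
finitely many sets of primes of positive density (theorem of Chebotarev), which depend on `g`, `h`, `b` only.
By the uniform distribution of `z_0(t), …, z_k(t)` Turan's sieve gives exact prime divisors of each
`z_l(t)` in each of these sets, not dividing the others, for almost all `t`, and a diagonal argument gives
one set `E` for the countably many data and all exponents. The integer parts of generalised
polynomials are uniformly distributed by estimates of exponential sums (engine of helper666).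
-/

set_option autoImplicit false

namespace Pool.Agent.Results.MP_f80667_ag.ThinSequences

open Polynomial Pool.Agent.R925.FD Pool.Agent.R925.ZC
open Pool.Agent.Results.MP_f80667_ag.DegreeZeroComplexOfTwists (Admissible EvenDegree
  OfPersistentClass TrivialValues parity_of_even trivial_of)

/-- All finite subfamilies of the sequences `z 0, z 1, …` of integers are uniformly distributed modulo all
`q`, along the sets `S N`. -/
def UD (S : ℕ → Finset ℕ) (z : ℕ → ℕ → ℤ) : Prop :=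
  ∀ (r : ℕ) (σ : Fin r → ℕ), Function.Injective σ → ∀ q : ℕ, 1 ≤ q → ∀ ρ : Fin r → ℤ,
    Filter.Tendsto (fun N => ({t : ℕ | t ∈ S N ∧ ∀ i, (q : ℤ) ∣ z (σ i) t - ρ i}.ncard : ℝ) / (S N).card)
      Filter.atTop (nhds (1 / (q : ℝ) ^ r))

/-- `c` is the largest exponent of the generalised polynomial `∑ a_x t ^ x`; it is positive and not an
integer and has a positive coefficient. -/
def Leading (F : Finset ℝ) (a : ℝ → ℝ) (c : ℝ) : Prop :=
  c ∈ F ∧ (∀ x ∈ F, x ≤ c) ∧ 0 < c ∧ (∀ m : ℕ, c ≠ m) ∧ 0 < a c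

/-- The integer parts of the values of the generalised polynomials `P_l(t) = ∑ a_x t ^ x`. -/
noncomputable def floors (F : ℕ → Finset ℝ) (a : ℕ → ℝ → ℝ) (l t : ℕ) : ℤ :=
  ⌊∑ x ∈ F l, a l x * (t : ℝ) ^ x⌋

/-- The integer `u ∏ z_l(t) ^ e_l`, `l ∈ s`. -/
def twist (z : ℕ → ℕ → ℤ) (s : Finset ℕ) (e : ℕ → ℕ) (u : ℤ) (t : ℕ) : ℤ :=
  u * ∏ l ∈ s, z l t ^ e l

/-- `E` has density zero relative to the sets `S N`. -/
def NullIn (S : ℕ → Finset ℕ) (E : Set ℕ) : Prop :=
  ∀ ε : ℝ, 0 < ε → ∃ N₀ : ℕ, ∀ N : ℕ, N₀ ≤ N →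
    ({t : ℕ | t ∈ S N ∧ t ∈ E}.ncard : ℝ) ≤ ε * (S N).card

/-- The property `P` is satisfied for all integers `a` which have an exact prime divisor in each of
finitely many sets of primes with divergent sums of reciprocals. -/
def LocalCriterion (P : ℤ → Prop) : Prop :=
  ∃ (r : ℕ) (Q : Fin r → Set ℕ), (∀ i, ∀ p ∈ Q i, p.Prime) ∧
    (∀ i, ∀ B : ℝ, ∃ y : ℕ, B ≤ ∑ p ∈ Finset.range y,
      Set.indicator (Q i) (fun p : ℕ => 1 / (p : ℝ)) p) ∧
    ∀ a : ℤ, (∀ i, ∃ p ∈ Q i, (p : ℤ) ∣ a ∧ ¬ (p : ℤ) ^ 2 ∣ a) → P a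

/-- For all products `a = u ∏ z_l(t) ^ e_l` with `u ≠ 0` and some `e_l = 1` the property `P a` holds for
all but finitely many integers `t` outside `E`. -/
def ForTwists (z : ℕ → ℕ → ℤ) (E : Set ℕ) (P : ℤ → Prop) : Prop :=
  ∀ (s : Finset ℕ) (e : ℕ → ℕ) (u : ℤ), u ≠ 0 → (∃ l ∈ s, e l = 1) →
    {t : ℕ | t ∉ E ∧ ¬ P (twist z s e u t)}.Finite

/-- On the curves `C a` every orthogonal adelic zero-cycle of even degree has the values of a persistent
class. -/
def OnlyPersistent {K : Type} [Fintype K] [DecidableEq K] (b : ℤ) (g : K → ℤ[X]) (h : ℤ[X]) (a : ℤ) :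
    Prop :=
  ∀ m, 0 < m → Even m → m ∣ h.natDegree → ∀ Z : AdelicCycle m b a g h, EvenDegree Z →
    Z.Orthogonal → OfPersistentClass Z

/-- On the curves `C a` every orthogonal adelic zero-cycle of even degree has the values of a zero-cycle
of degree zero over `ℚ`. -/
def OnlyRational {K : Type} [Fintype K] [DecidableEq K] (b : ℤ) (g : K → ℤ[X]) (h : ℤ[X]) (a : ℤ) :
    Prop :=
  ∀ m, 0 < m → Even m → m ∣ h.natDegree → ∀ Z : AdelicCycle m b a g h, EvenDegree Z →
    Z.Orthogonal → ∃ z : Cycle m b a g h ℚ, z.degree = 0 ∧ SameValues Z z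

/-- On the curves `C a` every orthogonal adelic zero-cycle of even degree has trivial values. -/
def OnlyTrivial {K : Type} [Fintype K] [DecidableEq K] (b : ℤ) (g : K → ℤ[X]) (h : ℤ[X]) (a : ℤ) :
    Prop :=
  ∀ m, 0 < m → Even m → m ∣ h.natDegree → ∀ Z : AdelicCycle m b a g h, EvenDegree Z →
    Z.Orthogonal → TrivialValues Z

/-- A property of the twists with the data `b`, `g`, `h` is `Holds` in the following four cases. -/
def FourCases {K : Type} [Fintype K] [DecidableEq K] (b : ℤ) (g : K → ℤ[X]) (h : ℤ[X])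
    (Holds : (ℤ → Prop) → Prop) : Prop :=
  Holds (OnlyPersistent b g h) ∧
  (∀ α₁ α₂ : ℚ, (∀ β : AlgebraicClosure ℚ, aeval β h = 0 ↔ β = α₁ ∨ β = α₂) →
    IsSquare ((b : ℚ) * ∏ k, aeval α₁ (g k)) → Holds (OnlyRational b g h)) ∧
  (∀ (x₁ x₂ : AlgebraicClosure ℚ) (N : K → ℚ),
    (∀ β : AlgebraicClosure ℚ, aeval β h = 0 → β = x₁ ∨ β = x₂) →
    (∀ k, aeval x₁ (g k) * aeval x₂ (g k) = (N k : AlgebraicClosure ℚ)) →
    (∀ k, N k ≠ 0) → ¬ IsSquare (∏ k, N k) → Holds (OnlyTrivial b g h)) ∧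
  (∀ (A B : ℚ) (v₁ v₂ v₃ : K → ℚ), ¬ IsSquare A → ¬ IsSquare B → ¬ IsSquare (A * B) →
    (∀ β : AlgebraicClosure ℚ, aeval β h = 0 → β ^ 2 = (A : AlgebraicClosure ℚ) ∨
      β ^ 2 = (B : AlgebraicClosure ℚ) ∨ β ^ 2 = ((A * B : ℚ) : AlgebraicClosure ℚ)) →
    (∀ k, v₁ k ≠ 0) → (∀ k, v₂ k ≠ 0) → (∀ k, v₃ k ≠ 0) →
    (∀ k β, β ^ 2 = (A : AlgebraicClosure ℚ) → aeval β (g k) = (v₁ k : AlgebraicClosure ℚ)) →
    (∀ k β, β ^ 2 = (B : AlgebraicClosure ℚ) → aeval β (g k) = (v₂ k : AlgebraicClosure ℚ)) →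
    (∀ k β, β ^ 2 = ((A * B : ℚ) : AlgebraicClosure ℚ) →
      aeval β (g k) = (v₃ k : AlgebraicClosure ℚ)) → Holds (OnlyTrivial b g h))

lemma LocalCriterion.mono {P P' : ℤ → Prop} (h : LocalCriterion P) (h' : ∀ a, P a → P' a) :
    LocalCriterion P' := by
  obtain ⟨r, Q, h1, h2, h3⟩ := h
  exact ⟨r, Q, h1, h2, fun a ha => h' a (h3 a ha)⟩

lemma ForTwists.mono {z : ℕ → ℕ → ℤ} {E : Set ℕ} {P P' : ℤ → Prop}
    (h : ForTwists z E P) (h' : ∀ a, P a → P' a) : ForTwists z E P' := fun s e u hu hs =>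
  (h s e u hu hs).subset fun _ ⟨h1, h2⟩ => ⟨h1, fun h3 => h2 (h' _ h3)⟩

section
variable {K : Type} [Fintype K] [DecidableEq K] {b : ℤ} {g : K → ℤ[X]} {h : ℤ[X]} {a : ℤ}

lemma only_of (hp : Pool.Agent.N546.ZT.ZCProp b g h a) : OnlyPersistent b g h a :=
  fun m _ hm hmh Z h1 h2 => hp m hm hmh 0 Z (parity_of_even h1) h2

lemma rational_of (hA : Admissible b g h) {α₁ α₂ : ℚ}
    (hz : ∀ β : AlgebraicClosure ℚ, aeval β h = 0 ↔ β = α₁ ∨ β = α₂)
    (hu : IsSquare ((b : ℚ) * ∏ k, aeval α₁ (g k)))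
    (hp : Pool.Agent.N546.ZT.ZCProp b g h a) : OnlyRational b g h a := by
  intro m hm0 hm hmh Z h1 h2
  obtain ⟨n, hn1, hn2, hn3, hn4, hn5⟩ := hp m hm hmh 0 Z (parity_of_even h1) h2
  obtain ⟨z, hz1, hz2⟩ := realize (m := m) (a := a) hm0 hA.b_ne hz
    (fun k => g_ne hA.h_deg hA.coprime_h ((hz α₁).2 (Or.inl rfl)) k)
    (fun k => g_ne hA.h_deg hA.coprime_h ((hz α₂).2 (Or.inr rfl)) k) (Or.inr hu) _ hn2 hn3
  exact ⟨z, hz1, fun k => same_aux (hn1 k).ne_zero (hn4 k) (hz2 k).2,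
    fun k p => same_aux (hn1 k).ne_zero (hn5 k p) (hz2 k).2⟩

lemma trivial_of_two (hA : Admissible b g h) (x₁ x₂ : AlgebraicClosure ℚ) (N : K → ℚ)
    (hz : ∀ β : AlgebraicClosure ℚ, aeval β h = 0 → β = x₁ ∨ β = x₂)
    (hN : ∀ k, aeval x₁ (g k) * aeval x₂ (g k) = (N k : AlgebraicClosure ℚ))
    (hN0 : ∀ k, N k ≠ 0) (hsq : ¬ IsSquare (∏ k, N k))
    (hp : Pool.Agent.N546.ZT.ZCProp b g h a) : OnlyTrivial b g h a := by
  intro m _ hm hmh Z h1 h2
  obtain ⟨n, hn1, hn2, hn3, hn4, hn5⟩ := hp m hm hmh 0 Z (parity_of_even h1) h2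
  exact trivial_of hn1 hn4 hn5 (trivial_two hA.b_ne g h x₁ x₂ hz N hN hN0 hsq Even.zero _ hn2 hn3)

lemma trivial_of_three (A B : ℚ) (v₁ v₂ v₃ : K → ℚ) (hA1 : ¬ IsSquare A) (hB : ¬ IsSquare B)
    (hAB : ¬ IsSquare (A * B))
    (hz : ∀ β : AlgebraicClosure ℚ, aeval β h = 0 → β ^ 2 = (A : AlgebraicClosure ℚ) ∨
      β ^ 2 = (B : AlgebraicClosure ℚ) ∨ β ^ 2 = ((A * B : ℚ) : AlgebraicClosure ℚ))
    (hv₁ : ∀ k, v₁ k ≠ 0) (hv₂ : ∀ k, v₂ k ≠ 0) (hv₃ : ∀ k, v₃ k ≠ 0)
    (h1 : ∀ k β, β ^ 2 = (A : AlgebraicClosure ℚ) → aeval β (g k) = (v₁ k : AlgebraicClosure ℚ))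
    (h2 : ∀ k β, β ^ 2 = (B : AlgebraicClosure ℚ) → aeval β (g k) = (v₂ k : AlgebraicClosure ℚ))
    (h3 : ∀ k β, β ^ 2 = ((A * B : ℚ) : AlgebraicClosure ℚ) →
      aeval β (g k) = (v₃ k : AlgebraicClosure ℚ))
    (hp : Pool.Agent.N546.ZT.ZCProp b g h a) : OnlyTrivial b g h a := by
  intro m _ hm hmh Z h4 h5
  obtain ⟨n, hn1, hn2, hn3, hn4, hn5⟩ := hp m hm hmh 0 Z (parity_of_even h4) h5
  exact trivial_of hn1 hn4 hn5
    (trivial_three g h A B hA1 hB hAB hz v₁ v₂ v₃ hv₁ hv₂ hv₃ h1 h2 h3 Even.zero _ hn2.1 hn3)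

lemma four (hA : Admissible b g h) (Holds : (ℤ → Prop) → Prop)
    (hH : Holds (Pool.Agent.N546.ZT.ZCProp b g h))
    (hmono : ∀ P P' : ℤ → Prop, Holds P → (∀ a, P a → P' a) → Holds P') :
    FourCases b g h Holds :=
  ⟨hmono _ _ hH fun _ => only_of, fun _ _ hz hu => hmono _ _ hH fun _ => rational_of hA hz hu,
    fun x₁ x₂ N hz hN hN0 hsq => hmono _ _ hH fun _ => trivial_of_two hA x₁ x₂ N hz hN hN0 hsq,
    fun A B v₁ v₂ v₃ hA1 hB hAB hz hv₁ hv₂ hv₃ h1 h2 h3 => hmono _ _ hH fun _ =>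
      trivial_of_three A B v₁ v₂ v₃ hA1 hB hAB hz hv₁ hv₂ hv₃ h1 h2 h3⟩

end

theorem result :
    (∀ (K : Type) [Fintype K] [DecidableEq K] (b : ℤ) (g : K → ℤ[X]) (h : ℤ[X]), Admissible b g h →
      FourCases b g h LocalCriterion) ∧
    (∀ S₁ S₂ : ℕ → Finset ℕ, (∀ N, S₁ N ⊆ Finset.Ioc N (2 * N)) →
      (∀ N, S₂ N ⊆ Finset.Ioc N (2 * N)) → ∀ z : ℕ → ℕ → ℤ, UD S₁ z → UD S₂ z →
      ∃ E : Set ℕ, NullIn S₁ E ∧ NullIn S₂ E ∧
        ∀ (r : ℕ) (b : ℤ) (g : Fin r → ℤ[X]) (h : ℤ[X]), Admissible b g h →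
          FourCases b g h (ForTwists z E)) ∧
    (∀ (F : ℕ → Finset ℝ) (a : ℕ → ℝ → ℝ) (c : ℕ → ℝ), (∀ l, Leading (F l) (a l) (c l)) →
      Function.Injective c → UD (fun N => Finset.Ioc N (2 * N)) (floors F a) ∧
        UD (fun N => (Finset.Ioc N (2 * N)).filter Nat.Prime) (floors F a)) := by
  refine ⟨fun K _ _ b g h hA => four hA _
    (Pool.Agent.N546.ZT.zc_crit hA.b_ne hA.g_ne hA.h_deg hA.deg hA.coprime hA.coprime_h)
    fun _ _ => LocalCriterion.mono, fun S₁ S₂ hS₁ hS₂ z h₁ h₂ => ?_,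
    fun F a c hF hc => Pool.Agent.N924.TH.ud_fl hF hc⟩
  obtain ⟨E, h1, h2, h3⟩ := Pool.Agent.N546.ZT.thin_adm hS₁ hS₂ h₁ h₂
    Pool.Agent.N546.ZT.countable_data (fun d => Admissible d.2.2.1 d.2.2.2.1 d.2.2.2.2)
    (fun d x => Pool.Agent.N546.ZT.ZCProp d.2.2.1 d.2.2.2.1 d.2.2.2.2 x)
    (fun d hA => Pool.Agent.N546.ZT.zc_crit hA.b_ne hA.g_ne hA.h_deg hA.deg hA.coprime
      hA.coprime_h)
  exact ⟨E, h1, h2, fun r b g h hA => four hA _ (h3 ⟨r, 0, b, g, h⟩ hA)
    fun _ _ => ForTwists.mono⟩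

end Pool.Agent.Results.MP_f80667_ag.ThinSequences
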