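import Pool.Agent.N874.TC.Fin
import Pool.Agent.N874.Jac.Def

/-!
# Zero-cycles on elliptic curves over real and complex number fields: exactness at the prime 2

We consider ALL the elliptic curves `E : y ^ 2 = x ^ 3 + a x + b` with integral `a`, `b`, ordered by the
height: `|a| ≤ B ^ 2`, `|b| ≤ B ^ 3`.

For `E` and a finite set `S` of primes let `C(E, S)` be the class of all the number fields `M` which are
Galois over `ℚ` of 2-power degree, have an embedding in `ℚ_2` (so `2` splits completely), in which all
`q ∈ S` split completely and in which only primes are ramified modulo which `x ^ 3 + a x + b` is irreducible.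
There is no condition at the infinite place: `M` may be totally real or totally complex.

Theorem. For every finite set `T` of primes there are a finite set `S` of primes, disjoint from `T`, and a
constant `c > 0` such that for all large `B` at least `c` times the number of all the pairs `(a, b)` of
height at most `B` are such that `x ^ 3 + a x + b` is irreducible over `ℚ`, modulo `2` and modulo all
`p ∈ T`, has only one real zero, `(a, b) = (D² a₀, D³ b₀)` with a product `D` of different primes in `S`
and squarefree `4 a₀³ + 27 b₀²`, and over ALL the number fields `M ∈ C(E, S)` the group `E(M)` is finite of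
odd order and the 2-primary part of the Tate-Shafarevich group of `E` over `M` is zero.

The question Q1 for `X = E` over `F = M`. The complex is the product of its `ℓ`-primary parts (the limits
over the powers `n` of `ℓ`). Here `F¹(E_M) = E(M)` and `Br(E_M) / Br_0(E_M) = H¹(M, E)`, and by the duality
theorem of Cassels and Tate the homology of the `ℓ`-primary part of the complex is the Tate module
`T_ℓ Sha(E / M)`. So for a positive proportion of ALL the elliptic curves `E` over `ℚ` and for ALL the
number fields `M ∈ C(E, S)`, real or complex, the 2-primary part of the complex for `E` over `M` is exact,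
unconditionally. As `E(M)` is finite of odd order, both sides are zero: no element of
`∏ lim E(M_v) / 2 ^ m` (modulo the image of `E(ℂ)` at the infinite places) except zero is orthogonal to
`Br(E_M)`.

The class `C(E, S)` is closed under composita and infinite: by the theorem of Chebotarev the polynomial is
irreducible modulo `p` for a set of primes `p` of positive density, and `C(E, S)` contains many
imaginary and real quadratic fields, their composita, and many non-abelian fields of unbounded degree.

The Birch and Swinnerton-Dyer conjecture modulo 2 holds for `E` over all `M ∈ C(E, S)` too.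

* The `L`-function. `E` is modular, and `M / ℚ` is solvable, so that `Λ(E / M, s)` is entire with the
  functional equation with the sign `W(E / M)`, by base change (Langlands, Arthur-Clozel).
  So `ord Λ(E / M, s)` at `s = 1` is even if and only if `W(E / M) = 1`.
* `M ≠ ℚ`. `W(E / M)` is the product of the local root numbers. Let `[M : ℚ] = 2 ^ n`. Over `2` and over
  the primes in `S` there are `2 ^ n` places with equal root numbers, so their product is 1. At the ramified
  primes the reduction is good. At the primes `p ∣ 4 a₀³ + 27 b₀²` (not in `S`; they are odd and not 3) the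
  reduction is multiplicative and `M` is unramified; the product over the places over `p` is 1 if their
  number is even, and otherwise there is one place, `M` is cyclic, the reduction is split over `M`,
  and the root number is `-1`. In this case `p` is inert in the quadratic field `ℚ(√d) ⊆ M`. Let
  `Δ = -(4 a₀³ + 27 b₀²)`; it is negative, because there is one real zero. By the product formula for the
  symbols `(d, Δ)` the number of these `p` is even if `d > 0` and odd if `d < 0`: the symbol is 1 at `2`
  and in `S`, where `d` is a square, and at the ramified primes, where `Δ` is a square because the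
  polynomial is irreducible modulo the prime, and it is `-1` at the real place if `d < 0`. If `M` is cyclic
  and `d < 0`, then `M = ℚ(√d)` (otherwise the complex conjugation, being a square in `Gal(M / ℚ)`, fixes
  `√d`), which has one infinite place, with root number `-1`; in all other cases the number of infinite
  places is even. So `W(E / M) = 1`, and the order of vanishing is even, like the rank.
* `M = ℚ`. By the theorem of Monsky `W(E / ℚ) = 1`, because the 2-Selmer group of `E` over `ℚ` is zero.

The new point compared with `MP_ac3185_nt.RankZeroUniformly` (project TQ, all genera), which is about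
totally real `M`, is that nothing is assumed at infinity. For this we work in the family of the `f` with
positive derivative, which has positive density too: `H¹(ℝ, E[2])` is then zero, so that there is no
condition at the real places, and every `M` is allowed.

Proof. By reduction theory of pairs of integral symmetric matrices, a reciprocity law and linear algebra
(project PQ of helper783) one finds for most `f` in the family a twist with a product of primes in `S`
such that a relaxed 2-Selmer group over `ℚ` is zero; the sieve for squarefree discriminants is done in the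
box with positive derivative. Let `M ∈ C(E, S)` and let `θ` be a zero of `f`. The local conditions over `M`
define a group of elements of `M(θ)` modulo squares which is stable under `Gal(M / ℚ)`; it is zero because
its invariant part comes from the relaxed Selmer group over `ℚ`. The real condition for this group is
automatic: an element of `ℚ(θ)` whose norm is a square is positive at the only real place of `ℚ(θ)`.

Project TC: helper874, based on the projects TQ, QM, TW (helper874), PQ (helper783) and JB (helper352),
with parts by helpers 490, 615, 648 and, in these projects, by helpers 2, 7, 27, 42, 73, 106, 123, 134, 160,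
187, 199, 216, 222, 232, 262, 271, 301, 316, 322, 340, 346, 348, 383, 394, 400, 424, 438, 456, 457, 459, 488,
490, 498, 507, 521, 530, 595, 615, 644, 655, 691, 711, 713, 738, 747, 755, 756, 776, 814, 833, 835, 849, 850,
855, 878, 891, 896, 942, 951, 999.
-/

set_option autoImplicit false
set_option linter.all false

namespace Pool.Agent.Results.MP_f80667_ag.TwoExtensionsAllSignatures

open Polynomial Filter IsDedekindDomain NumberField
open Pool.Agent.N874.Jac (ShaTwoTrivialReal)
open scoped Classical

/-- The pairs `(a, b)` of height at most `B`. -/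
def Pairs (B : ℕ) : Set (ℤ × ℤ) := {p | |p.1| ≤ (B : ℤ) ^ 2 ∧ |p.2| ≤ (B : ℤ) ^ 3}

/-- The polynomial `x ^ 3 + a x + b` over a ring `R`. -/
noncomputable def cubic (R : Type) [CommRing R] (p : ℤ × ℤ) : R[X] :=
  X ^ 3 + C (p.1 : R) * X + C (p.2 : R)

/-- The curve `y ^ 2 = x ^ 3 + a x + b` over a field `M`. -/
def curve (M : Type) [Field M] (p : ℤ × ℤ) : WeierstrassCurve M := ⟨0, 0, 0, (p.1 : M), (p.2 : M)⟩

/-- The group of the points over `M`. -/
abbrev points (M : Type) [Field M] (p : ℤ × ℤ) : Type := (curve M p).toAffine.Point

/-- `p` is unramified in the number field `M`. -/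
def Unramified (M : Type) [Field M] [NumberField M] (p : ℕ) : Prop :=
  ∀ w : HeightOneSpectrum (𝓞 M), (p : 𝓞 M) ∈ w.asIdeal → (p : 𝓞 M) ∉ w.asIdeal ^ 2

/-- `q` splits completely in the number field `M`: it is unramified, and all algebraic integers in `M`
are congruent to integers modulo every prime over `q`. -/
def SplitsCompletely (M : Type) [Field M] [NumberField M] (q : ℕ) : Prop :=
  Unramified M q ∧ ∀ w : HeightOneSpectrum (𝓞 M), (q : 𝓞 M) ∈ w.asIdeal →
    ∀ y : 𝓞 M, ∃ c : ℤ, y - (c : 𝓞 M) ∈ w.asIdeal

/-- `M` belongs to the class `C(E, S)`: it is Galois over `ℚ` of 2-power degree and has an embedding in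
`ℚ_2`, the primes in `S` split completely, and only primes are ramified modulo which `x ^ 3 + a x + b` is
irreducible. -/
structure InClass (S : Finset ℕ) (p : ℤ × ℤ) (M : Type) [Field M] [NumberField M] : Prop where
  galois : IsGalois ℚ M
  degree : ∃ n : ℕ, Module.finrank ℚ M = 2 ^ n
  two : Nonempty (M →+* ℚ_[2])
  split : ∀ q ∈ S, SplitsCompletely M q
  ramified : ∀ l : ℕ, l.Prime → Unramified M l ∨ Irreducible (cubic (ZMod l) p)

/-- The properties of the curves in the theorem. -/
structure Good (S T : Finset ℕ) (p : ℤ × ℤ) : Prop where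
  irreducible : Irreducible (cubic ℚ p)
  two : Irreducible (cubic (ZMod 2) p)
  mod : ∀ l ∈ T, Irreducible (cubic (ZMod l) p)
  real : ∃! x : ℝ, (cubic ℝ p).eval x = 0
  squarefree : ∃ I ⊆ S, ∃ a b : ℤ, Squarefree (4 * a ^ 3 + 27 * b ^ 2) ∧
    p.1 = ((∏ q ∈ I, q : ℕ) : ℤ) ^ 2 * a ∧ p.2 = ((∏ q ∈ I, q : ℕ) : ℤ) ^ 3 * b
  rank : ∀ (M : Type) [Field M] [NumberField M], InClass S p M →
    Finite (points M p) ∧ Odd (Nat.card (points M p)) ∧ ShaTwoTrivialReal (cubic M p) (𝓞 M)

theorem real_zero {a b : ℤ} (ha : 0 < a) : ∃! x : ℝ, (cubic ℝ (a, b)).eval x = 0 := by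
  have e : ∀ x : ℝ, (cubic ℝ (a, b)).eval x = x ^ 3 + a * x + b := by
    intro x
    simp [cubic]
  have har : (0 : ℝ) < a := by exact_mod_cast ha
  have har1 : (1 : ℝ) ≤ a := by exact_mod_cast ha
  have hmono : StrictMono fun x : ℝ => x ^ 3 + a * x + b := by
    intro x y hxy
    have h1 : x ^ 3 < y ^ 3 := Odd.strictMono_pow (by decide) hxy
    have h2 : (a : ℝ) * x < a * y := mul_lt_mul_of_pos_left hxy har
    simp only
    linarith
  have hcont : Continuous fun x : ℝ => x ^ 3 + a * x + b := by fun_prop
  have hex : ∃ x : ℝ, x ^ 3 + a * x + b = 0 := by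
    have hb := abs_nonneg (b : ℝ)
    have hb1 := le_abs_self (b : ℝ)
    have hb2 := neg_abs_le (b : ℝ)
    obtain ⟨R, hR⟩ : ∃ R : ℝ, R = |(b : ℝ)| + 1 := ⟨_, rfl⟩
    have hR0 : (0 : ℝ) < R := by linarith
    have hR1 : R ≤ a * R := le_mul_of_one_le_left hR0.le har1
    have hR3 : (0 : ℝ) < R ^ 3 := by positivity
    exact mem_range_of_exists_le_of_exists_ge hcont
      ⟨-R, show (-R) ^ 3 + a * (-R) + b ≤ 0 by
        have e3 : (-R) ^ 3 = -R ^ 3 := by ring
        rw [e3]
        linarith⟩
      ⟨R, show 0 ≤ R ^ 3 + a * R + b by linarith⟩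
  obtain ⟨x, hx⟩ := hex
  refine ⟨x, (e x).trans hx, fun y hy => ?_⟩
  exact hmono.injective (((e y).symm.trans hy).trans hx.symm)

theorem pairs_finite (B : ℕ) : (Pairs B).Finite := by
  refine ((Set.finite_Icc (-(B : ℤ) ^ 2) ((B : ℤ) ^ 2)).prod
    (Set.finite_Icc (-(B : ℤ) ^ 3) ((B : ℤ) ^ 3))).subset ?_
  rintro ⟨a, b⟩ ⟨h1, h2⟩
  rw [abs_le] at h1 h2
  exact ⟨⟨h1.1, h1.2⟩, ⟨h2.1, h2.2⟩⟩

theorem cubic_eq (R : Type) [CommRing R] (a b : ℤ) :
    cubic R (a, b) = (Pool.Agent.N874.TC.cub a b).map (Int.castRingHom R) := by
  unfold Pool.Agent.N874.TC.cub cubic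
  simp

/-- **A positive proportion of all elliptic curves over `ℚ`, over all `M` in a class of number fields of any
signature.** For every finite set `T` of primes there are a finite set `S` of primes,
disjoint from `T`, and a constant `c > 0` such that for all large `B` at least `c` times the number of all
the pairs `(a, b)` of height at most `B` are good. -/
theorem result (T : Finset ℕ) (hT : ∀ p ∈ T, p.Prime) :
    (∀ B : ℕ, (Pairs B).Finite) ∧
    ∃ S : Finset ℕ, (∀ q ∈ S, q.Prime) ∧ Disjoint S T ∧
      ∃ c : ℝ, 0 < c ∧ ∀ᶠ B : ℕ in atTop, 0 < (Pairs B).ncard ∧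
        c * ((Pairs B).ncard : ℝ) ≤ ({p ∈ Pairs B | Good S T p}.ncard : ℝ) := by
  refine ⟨pairs_finite, ?_⟩
  obtain ⟨S, hS, hdis, c, hc, B₀, hB₀⟩ := Pool.Agent.N874.TC.final (g := 1) le_rfl (insert 2 T) (by
    intro p hp
    rcases Finset.mem_insert.1 hp with rfl | hp
    · exact Nat.prime_two
    · exact hT p hp)
  refine ⟨S, hS, Finset.disjoint_of_subset_right (Finset.subset_insert 2 T) hdis, c, hc, ?_⟩
  filter_upwards [eventually_ge_atTop B₀] with B hB
  obtain ⟨hHt, hle⟩ := hB₀ B hB
  have heq : ∀ f : ℤ[X], Pool.Agent.N783.PQ.Ht 1 B f →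
      f = Pool.Agent.N874.TC.cub (f.coeff 1) (f.coeff 0) := fun f hf =>
    Pool.Agent.N874.TC.eq_cub hf.mon hf.deg hf.tr
  have hinj : Set.InjOn (fun f : ℤ[X] => (f.coeff 1, f.coeff 0))
      {f : ℤ[X] | Pool.Agent.N783.PQ.Ht 1 B f} := by
    intro f hf k hk h
    have h1 := congrArg Prod.fst h
    have h2 := congrArg Prod.snd h
    simp only at h1 h2
    rw [heq f hf, heq k hk, h1, h2]
  have himg : (fun f : ℤ[X] => (f.coeff 1, f.coeff 0)) '' {f : ℤ[X] | Pool.Agent.N783.PQ.Ht 1 B f} =
      Pairs B := by
    ext ⟨a, b⟩
    constructor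
    · rintro ⟨f, hf, h⟩
      rw [← h]
      exact ⟨hf.ht 1 (by norm_num), hf.ht 0 (by norm_num)⟩
    · rintro ⟨h1, h2⟩
      refine ⟨Pool.Agent.N874.TC.cub a b, ⟨Pool.Agent.N874.TC.cub_monic a b,
        Pool.Agent.N874.TC.cub_natDegree a b, Pool.Agent.N874.TC.cub_coeff2 a b, fun j hj => ?_⟩, ?_⟩
      · interval_cases j
        · rw [Pool.Agent.N874.TC.cub_coeff0]
          exact h2
        · rw [Pool.Agent.N874.TC.cub_coeff1]
          exact h1
        · rw [Pool.Agent.N874.TC.cub_coeff2, abs_zero]
          positivity
      · simp only [Pool.Agent.N874.TC.cub_coeff0, Pool.Agent.N874.TC.cub_coeff1]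
  have hcard : {f : ℤ[X] | Pool.Agent.N783.PQ.Ht 1 B f}.ncard = (Pairs B).ncard := by
    rw [← himg, Set.ncard_image_of_injOn hinj]
  have hgood : {f : ℤ[X] | Pool.Agent.N783.PQ.Ht 1 B f ∧ Irreducible (Pool.Agent.N783.PQ.ov ℚ f) ∧
      (∀ p ∈ insert 2 T, Irreducible (Pool.Agent.N783.PQ.rd p f)) ∧
      Pool.Agent.N874.TQ.Tws 1 S f ∧ Pool.Agent.N874.TC.Uni S f f ∧ Pool.Agent.N874.TC.Mono f}.ncard ≤
      {p ∈ Pairs B | Good S T p}.ncard := by
    refine Set.ncard_le_ncard_of_injOn (fun f : ℤ[X] => (f.coeff 1, f.coeff 0)) ?_
      (hinj.mono fun f hf => hf.1) ((pairs_finite B).subset fun p hp => hp.1)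
    rintro f ⟨h1, h2, h3, h4, h5, h6⟩
    have hf := heq f h1
    have hmem : (f.coeff 1, f.coeff 0) ∈ Pairs B := by
      rw [← himg]
      exact ⟨f, h1, rfl⟩
    refine ⟨hmem, ?_⟩
    generalize f.coeff 1 = a at hf hmem ⊢
    generalize f.coeff 0 = b at hf hmem ⊢
    subst hf
    have ha : 0 < a := by
      have := h6 0
      have e : (derivative (Pool.Agent.N783.PQ.ov ℝ (Pool.Agent.N874.TC.cub a b))).eval 0 = (a : ℝ) := by
        unfold Pool.Agent.N874.TC.cub Pool.Agent.N783.PQ.ov
        simp
      rw [e] at this
      exact_mod_cast this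
    refine ⟨?_, ?_, ?_, real_zero ha, Pool.Agent.N874.TC.tws_cub hS h4, ?_⟩
    · rw [cubic_eq]
      exact h2
    · rw [cubic_eq]
      exact h3 2 (Finset.mem_insert_self 2 T)
    · intro l hl
      rw [cubic_eq]
      exact h3 l (Finset.mem_insert_of_mem hl)
    · intro M _ _ hM
      obtain ⟨n, hn⟩ := hM.degree
      obtain ⟨τ⟩ := hM.two
      haveI := hM.galois
      have hsel : Pool.Agent.N874.QM.SelM M ((Pool.Agent.N874.TC.cub a b).map (algebraMap ℤ M)) := by
        refine h5 M τ n hn (fun q hq w hw => ⟨?_, fun y => ?_⟩) fun p hp hram => ?_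
        · exact (Pool.Agent.N874.TQ.val_iff q w hw).2 ((hM.split q hq).1 w hw)
        · obtain ⟨y, rfl⟩ := Ideal.Quotient.mk_surjective y
          obtain ⟨b, hb⟩ := (hM.split q hq).2 w hw y
          exact ⟨b, (Ideal.Quotient.eq.2 hb).symm⟩
        · rcases hM.ramified p hp with h | h
          · obtain ⟨w, hw, hne⟩ := hram
            exact absurd ((Pool.Agent.N874.TQ.val_iff p w hw).2 (h w hw)) hne
          · rw [cubic_eq] at h
            exact h
      have h7 := Pool.Agent.N874.QM.genuine M hn (Pool.Agent.N874.TC.cub_monic a b)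
        (by rw [Pool.Agent.N874.TC.cub_natDegree]; decide) h2 hsel
      have h8 := Pool.Agent.N874.TC.pts_of M hn h2 hsel
      refine ⟨h8.1, h8.2, ?_⟩
      have h9 := h7.2
      rw [Pool.Agent.N874.TC.cub_map] at h9
      exact h9
  rw [hcard] at hle
  refine ⟨?_, hle.trans (by exact_mod_cast hgood)⟩
  rw [Set.ncard_pos (pairs_finite B)]
  exact ⟨(0, 0), by simp only [Pairs, Set.mem_setOf_eq, abs_zero]; constructor <;> positivity⟩

end Pool.Agent.Results.MP_f80667_ag.TwoExtensionsAllSignatures
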